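import Pool.Agent.T2h78.TW.Fz
import Pool.Agent.T2h78.TW.Cv6
import Pool.Agent.T2h78.TW.Lev
import Pool.Agent.T2h78.TW.Fin1
import Pool.Agent.T2h78.TW.HC
import Pool.Agent.T2h78.TW.LS
import Pool.Agent.T2h78.TW.Tam
import Pool.Agent.T2h78.TW.GA
import Pool.Agent.T2h78.TW.GB
import Pool.Agent.T2h78.TW.GC
import Pool.Agent.T2h78.TW.LR
import Pool.Agent.T2h78.TW.LN
import Pool.Agent.T2h78.TW.LM
import Pool.Agent.T2h69.TW.LSq
import Pool.Agent.T2h69.TW.L2
import Pool.Agent.T2h69.TW.LG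

/-!
# The Birch and Swinnerton-Dyer formula modulo two for all the quadratic twists of `X_0(49)` by
# positive integers `D ≡ 1 mod 4` prime to `7`

`D ≥ 1` is any squarefree number with `D ≡ 1 mod 4` and `7 ∤ D`, with no condition on its prime
factors, and `E_D` is the quadratic twist by `D` of `X_0(49) : y² + x y = x³ - x² - 2 x - 1`, the curve
`y² + x y = x³ - (3 D + 1) / 4 x² - 2 D² x - D³`.
Let `z = L(E_D, 1) #E_D(ℚ)_tors² / (Ω ∏ c_p)`, which is zero or the order of `Ш(E_D/ℚ)` according to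
the conjecture. Let `ω = (1 + √-7) / 2`, and let `D = π₁ ⋯ πₙ` be the factorization of `D` into prime
elements `≡ 1 mod ω²` of `ℤ[ω]` (it exists and is unique up to the order of the factors). The theorem
says, with no hypothesis on the rank or on `Ш`:
* `L(E_D, s)` is entire, the equation of `E_D` is minimal, the order of the torsion subgroup is twice
  an odd number, and `∏ c_p = 2 ^ (1 + n)`;
* `z` is an algebraic number which is integral at all the primes above two;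
* `z` is a unit at one prime above two iff it is so at all of them iff `E_D(ℚ)` is finite and
  `Ш(E_D/ℚ)` has no element of order two iff the matrix `mat π` over `𝔽₂`, which is made of the
  quadratic residue symbols in `ℤ[ω]` between the `πᵢ` and of those of `√-7` modulo the `πᵢ`, is not
  singular;
* in this case `L(E_D, 1) ≠ 0` and the 2-primary part of `Ш(E_D/ℚ)` is zero.

Proof: the value `L(E_D, 1)` by sums of `℘`-functions at the division points and an induction over the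
sets of the prime elements of `ℤ[ω]`, with the signs that appear when some primes are not `1 mod 4`;
the Tamagawa numbers; the reciprocity law of `ℤ[ω]`; a 2-descent over `ℚ(√-7)`; and, for a singular
matrix, a kernel vector, which gives an everywhere locally soluble class of
`H¹(ℚ, E_D[2])` that does not come from a torsion point.
-/

set_option autoImplicit false

open NumberField NumberField.InfinitePlace IsDedekindDomain WeierstrassCurve MeasureTheory

namespace Pool.Agent.Results.MP_9c97e9_nt.AllTwistsModTwo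

open Pool.Agent.TH841.NF.D (Sha)
open Pool.Agent.TH841.SH.D (Pt)

/-- The quadratic twist by `D ≡ 1 mod 4` of `X_0(49) : y² + x y = x³ - x² - 2 x - 1`. -/
def twist (D : ℕ) : WeierstrassCurve ℤ := ⟨1, -((3 * D + 1) / 4), 0, -2 * D ^ 2, -D ^ 3⟩

/-- The curve over `ℚ`. -/
abbrev E (D : ℕ) : WeierstrassCurve ℚ := (twist D).map (Int.castRingHom ℚ)

/-- The equation is minimal at the place `v`: no change of variables over `ℚ` that keeps the
coefficients integral at `v` decreases the order of the discriminant. -/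
def MinimalAt (W : WeierstrassCurve ℚ) (v : HeightOneSpectrum (𝓞 ℚ)) : Prop :=
  ∀ C : VariableChange ℚ, v.valuation ℚ (C • W).a₁ ≤ 1 → v.valuation ℚ (C • W).a₂ ≤ 1 →
    v.valuation ℚ (C • W).a₃ ≤ 1 → v.valuation ℚ (C • W).a₄ ≤ 1 → v.valuation ℚ (C • W).a₆ ≤ 1 →
    v.valuation ℚ (C • W).Δ ≤ v.valuation ℚ W.Δ

/-- `W⁰(ℚ_v)`, the group of the points of `W` over the completion `ℚ_v` with nonsingular reduction:
the point at infinity and the points `(x, y)` where `x` is not integral, or one of the partial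
derivatives of `y² + a₁ x y + a₃ y - x³ - a₂ x² - a₄ x - a₆` is a unit at `(x, y)`.
Here `Pt W ℚ_v` is the group of the points of `W` over `ℚ_v`. -/
noncomputable def nonsing (W : WeierstrassCurve ℚ) (v : HeightOneSpectrum (𝓞 ℚ)) :
    AddSubgroup (Pt W (v.adicCompletion ℚ)) :=
  AddSubgroup.closure {P | ∀ x y h, P = Affine.Point.some x y h →
    1 < Valued.v x ∨
    Valued.v ((W.baseChange (v.adicCompletion ℚ)).a₁ * y -
      (3 * x ^ 2 + 2 * (W.baseChange (v.adicCompletion ℚ)).a₂ * x +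
        (W.baseChange (v.adicCompletion ℚ)).a₄)) = 1 ∨
    Valued.v (2 * y + (W.baseChange (v.adicCompletion ℚ)).a₁ * x +
      (W.baseChange (v.adicCompletion ℚ)).a₃) = 1}

/-- The Tamagawa number `c_v = [W(ℚ_v) : W⁰(ℚ_v)]` of a minimal equation. -/
noncomputable def c (W : WeierstrassCurve ℚ) (v : HeightOneSpectrum (𝓞 ℚ)) : ℕ :=
  (nonsing W v).index

/-- The product of the Tamagawa numbers. -/
noncomputable def Tam (W : WeierstrassCurve ℚ) : ℕ := ∏ᶠ v : HeightOneSpectrum (𝓞 ℚ), c W v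

/-- `4 x³ + b₂ x² + 2 b₄ x + b₆ = (2 y + a₁ x + a₃)²`. -/
def cubic (W : WeierstrassCurve ℤ) (x : ℝ) : ℝ := 4 * x ^ 3 + W.b₂ * x ^ 2 + 2 * W.b₄ * x + W.b₆

/-- `Ω = ∫_{W(ℝ)} |ω|` with `ω = dx / (2 y + a₁ x + a₃)`, as an integral over `x`: two real points lie
over each `x` with `cubic x > 0`. -/
noncomputable def Omega (W : WeierstrassCurve ℤ) : ℝ :=
  2 * ∫ x in {x : ℝ | 0 < cubic W x}, 1 / √(cubic W x)

open Classical in
/-- The order of the torsion subgroup of `W(K)`. -/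
noncomputable def torsOrder {K : Type} [Field K] (W : WeierstrassCurve K) : ℕ :=
  Nat.card (AddCommGroup.torsion W.toAffine.Point)

/-- The order of the Tate-Shafarevich group predicted by the formula, for the value `l` of the
L-function of `E_D` at `s = 1`: `l #E_D(ℚ)_tors² / (Ω ∏ c_v)`. -/
noncomputable def anOrder (D : ℕ) (l : ℂ) : ℂ :=
  l * (torsOrder (E D) : ℂ) ^ 2 / ((Omega (twist D) : ℝ) * (Tam (E D) : ℂ))

/-- `D` is squarefree, `D ≡ 1 mod 4` and `7` does not divide `D`. -/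
def Adm (D : ℕ) : Prop := Squarefree D ∧ D % 4 = 1 ∧ ¬ 7 ∣ D

/-- `ω = (1 + √-7) / 2`. -/
noncomputable def ω : ℂ := (1 + Complex.I * (Real.sqrt 7 : ℂ)) / 2

lemma ω_sq : ω ^ 2 = ω - 2 := Pool.Agent.Y698.al_sq

/-- The ring `ℤ[ω]`, the ring of the integers of `ℚ(√-7)`. -/
noncomputable def R : Subring ℂ where
  carrier := {z | ∃ x y : ℤ, z = x + y * ω}
  zero_mem' := ⟨0, 0, by simp⟩
  one_mem' := ⟨1, 0, by simp⟩
  add_mem' := by
    rintro _ _ ⟨x, y, rfl⟩ ⟨x', y', rfl⟩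
    exact ⟨x + x', y + y', by push_cast; ring⟩
  neg_mem' := by
    rintro _ ⟨x, y, rfl⟩
    exact ⟨-x, -y, by push_cast; ring⟩
  mul_mem' := by
    rintro _ _ ⟨x, y, rfl⟩ ⟨x', y', rfl⟩
    refine ⟨x * x' - 2 * y * y', x * y' + y * x' + y * y', ?_⟩
    push_cast
    linear_combination (y * y' : ℂ) * ω_sq

/-- `ω` in the ring `ℤ[ω]`. -/
noncomputable def w : R := ⟨ω, ⟨0, 1, by simp⟩⟩

/-- `D = π₁ ⋯ πₙ` where the `πᵢ` are prime elements of `ℤ[ω]` which are `1 mod ω²`. -/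
def Fac (D n : ℕ) (π : Fin n → R) : Prop :=
  (∀ i, Prime (π i) ∧ w ^ 2 ∣ π i - 1) ∧ ∏ i, π i = (D : R)

open Classical in
/-- `1` if `x` is not a square modulo `π`, and `0` if it is. -/
noncomputable def nonsq (π x : R) : ZMod 2 :=
  if IsSquare (Ideal.Quotient.mk (Ideal.span {π}) x) then 0 else 1

/-- The matrix over the field with two elements with the entry `nonsq (π j) (π i)` at `(i, j)` for
`i ≠ j`, and at `(i, i)` the sum of `nonsq (π i) √-7`, `√-7 = 2 ω - 1`, and of the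
`nonsq (π k) (π i)` for all `k ≠ i`. -/
noncomputable def mat {n : ℕ} (π : Fin n → R) : Matrix (Fin n) (Fin n) (ZMod 2) :=
  Matrix.of fun i j =>
    if i = j then nonsq (π i) (2 * w - 1) + ∑ k ∈ Finset.univ.erase i, nonsq (π k) (π i)
    else nonsq (π j) (π i)

section proof

open Pool.Agent.Y698 Pool.Agent.Y698.SG Pool.Agent.T2h78.TW

lemma E_eq {D j : ℕ} (hj : D = 1 + 4 * j) : E D = AX ℚ j := twZ_map hj ℚ

lemma cubic_eq {D j : ℕ} (hj : D = 1 + 4 * j) (x : ℝ) :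
    cubic (twist D) x = psD (1 + 4 * j) x := by
  have h1 : (3 * (D : ℤ) + 1) / 4 = 1 + 3 * j := by
    rw [hj]
    push_cast
    omega
  unfold cubic twist WeierstrassCurve.b₂ WeierstrassCurve.b₄ WeierstrassCurve.b₆ psD
  simp only
  rw [h1, hj]
  push_cast
  ring

lemma real_eq {D j : ℕ} (hj : D = 1 + 4 * j) : Omega (twist D) =
    ∫ x in {x : ℝ | 0 < psD (1 + 4 * j) x}, 2 / Real.sqrt (psD (1 + 4 * j) x) := by
  unfold Omega
  simp only [cubic_eq hj]
  rw [← integral_const_mul]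
  congr 1
  funext x
  ring

lemma nr_rat : nrRealPlaces ℚ = 1 ∧ nrComplexPlaces ℚ = 0 := by
  have h := InfinitePlace.card_add_two_mul_card_eq_rank ℚ
  rw [Module.finrank_self] at h
  omega

lemma rat_all (k : ℚ) : ∃ u : ℚ, k = u := ⟨k, (Rat.cast_id k).symm⟩

/-- the ring of the proof -/
lemma R_eq : R = RR := rfl

lemma gq_of {D : ℕ} (h : Adm D) : ∀ q ∈ D.primeFactors, Gq q := by
  intro q hq
  have h1 := Nat.prime_of_mem_primeFactors hq
  have h2 := Nat.dvd_of_mem_primeFactors hq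
  refine ⟨h1, ?_, ?_⟩
  · rintro rfl
    have := h.2.1
    omega
  · rintro rfl
    exact h.2.2 h2

/-- the facts of the proof for one factorization -/
theorem core {D : ℕ} (h : Adm D) {ϖ : ℕ → RR} (hc : Chs D.primeFactors ϖ) :
    (∀ v : HeightOneSpectrum (𝓞 ℚ), MinimalAt (E D) v) ∧
    (∃ t : ℕ, Odd t ∧ torsOrder (E D) = 2 * t) ∧
    Tam (E D) = 2 ^ (1 + (ixs D.primeFactors).card) ∧
    ((Finite (E D).toAffine.Point ∧ ∀ x : Sha (E D), x + x = 0 → x = 0) ↔
      gD D.primeFactors ϖ ≠ 0) ∧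
    ∃ Λ : ℂ → ℂ, Differentiable ℂ Λ ∧
      (∀ s : ℂ, 2 < s.re → Λ s = (E D).LSeries s) ∧
      (∃ m : ℤ, Odd m ∧ _root_.IsIntegral ℤ (m * anOrder D (Λ 1))) ∧
      (∀ (Γ : Type) [LinearOrderedCommGroupWithZero Γ] (v : Valuation ℂ Γ), v 2 < 1 →
        v (anOrder D (Λ 1)) ≤ 1 ∧ (v (anOrder D (Λ 1)) = 1 ↔ gD D.primeFactors ϖ ≠ 0)) ∧
      (gD D.primeFactors ϖ ≠ 0 → Λ 1 ≠ 0 ∧ ∀ (n : ℕ) (x : Sha (E D)), 2 ^ n • x = 0 → x = 0) := by
  classical
  have hm4 := h.2.1
  set S := D.primeFactors with hSd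
  have hS : ∀ q ∈ S, Gq q := gq_of h
  have hDu : ∏ q ∈ S, q = D := Nat.prod_primeFactors_of_squarefree h.1
  obtain ⟨j, hj'⟩ : ∃ j, D = 1 + 4 * j := ⟨D / 4, by omega⟩
  have hj : ∏ q ∈ S, q = 1 + 4 * j := hDu.trans hj'
  have h4 : (∏ q ∈ S, q) % 4 = 1 := by rw [hDu]; exact hm4
  have hE := E_eq hj'
  have hr := inq5
  have hrf : Fact (Nat.Prime 5) := ⟨hr.pr⟩
  have hM : IsCyclotomicExtension {5} ℚ (CyclotomicField 5 ℚ) := Pool.Agent.Y698.cyc_inst 5
  have han : ∀ l : ℂ, anOrder D l = quoT ℚ j l := by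
    intro l
    unfold anOrder torsOrder
    rw [hE, real_eq hj']
    unfold quoT tnum
    have hT : Tam (AX ℚ j) = ∏ᶠ v, tam (AX ℚ j) v := rfl
    rw [hT, Rat.numberField_discr, nr_rat.1, nr_rat.2, pow_one, pow_zero]
    generalize (∏ᶠ v, tam (AX ℚ j) v : ℕ) = t
    simp
  have hst : torsOrder (E D) = tnum (AX ℚ j) := by
    unfold torsOrder tnum
    rw [hE]
  have htam : Tam (E D) = 2 ^ (1 + (ixs S).card) := by
    rw [hE, card_ixs]
    exact t_TAM S j hS hj
  obtain ⟨Λ, h1, h2, h3⟩ := level t_HC t_LS t_TAM inp.rec' hS hj hc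
  simp only [han, hst]
  rw [hE] at htam ⊢
  refine ⟨fun v => t_MIN S j hS hj v, tnum_AX (CyclotomicField 5 ℚ) ℚ hr.ns j, htam,
    ⟨fun h5 => ?_, fun h5 => ⟨mw_finite1 ℚ rat_all hS h4 hc h5 hj,
      fun x hx => sha_two1 ℚ rat_all hS h4 hc h5 hj x hx⟩⟩,
    Λ, h1, h2, int_of_val fun Γ _ v hv => (h3 Γ v hv).1, fun Γ _ v hv => h3 Γ v hv,
    fun h5 => ⟨fun h0 => ?_, fun n x hx => sha_pow1 ℚ rat_all hS h4 hc h5 hj x n hx⟩⟩
  · intro h0
    obtain ⟨x, hx0, hx2⟩ := conv t_GA t_GB t_GC t_LR Pool.Agent.T2h69.TW.t_LSq t_LN1 t_LN2 t_LM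
      (Pool.Agent.T2h69.TW.t_LG t_LN1 t_LN2 t_LM) Pool.Agent.T2h69.TW.t_L2 Pool.Agent.T2h69.TW.t_L7 hS hj hc h0 h5.1
    exact hx0 (h5.2 x hx2)
  · refine exists_val2 fun Γ _ v hv => ?_
    have h6 := ((h3 Γ v hv).2).2 h5
    rw [h0] at h6
    unfold quoT at h6
    rw [zero_mul, zero_mul, zero_div, map_zero] at h6
    exact zero_ne_one h6

end proof

/-- **The formula modulo two for all the quadratic twists of `X_0(49)` by positive integers
`D ≡ 1 mod 4` prime to `7`.** -/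
theorem result : ∀ D : ℕ, Adm D →
    (∃ (n : ℕ) (π : Fin n → R), Fac D n π) ∧
    ∀ (n : ℕ) (π : Fin n → R), Fac D n π →
      (∀ v : HeightOneSpectrum (𝓞 ℚ), MinimalAt (E D) v) ∧
      (∃ t : ℕ, Odd t ∧ torsOrder (E D) = 2 * t) ∧
      Tam (E D) = 2 ^ (1 + n) ∧
      ((Finite (E D).toAffine.Point ∧ ∀ x : Sha (E D), x + x = 0 → x = 0) ↔ (mat π).det ≠ 0) ∧
      ∃ Λ : ℂ → ℂ, Differentiable ℂ Λ ∧
        (∀ s : ℂ, 2 < s.re → Λ s = (E D).LSeries s) ∧
        (∃ m : ℤ, Odd m ∧ _root_.IsIntegral ℤ (m * anOrder D (Λ 1))) ∧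
        (∀ (Γ : Type) [LinearOrderedCommGroupWithZero Γ] (v : Valuation ℂ Γ), v 2 < 1 →
          v (anOrder D (Λ 1)) ≤ 1 ∧ (v (anOrder D (Λ 1)) = 1 ↔ (mat π).det ≠ 0)) ∧
        ((mat π).det ≠ 0 → Λ 1 ≠ 0 ∧ ∀ (n : ℕ) (x : Sha (E D)), 2 ^ n • x = 0 → x = 0) := by
  intro D h
  have hS := gq_of h
  have hDu : ∏ q ∈ D.primeFactors, q = D := Nat.prod_primeFactors_of_squarefree h.1
  have h4 : (∏ q ∈ D.primeFactors, q) % 4 = 1 := by rw [hDu]; exact h.2.1
  obtain ⟨ϖ, hc⟩ := Pool.Agent.T2h78.TW.exists_chs hS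
  have hcore := core h hc
  refine ⟨?_, ?_⟩
  · obtain ⟨π, h1, h2, h3⟩ := Pool.Agent.T2h78.TW.exists_fac hS h4 hc
    rw [hDu] at h3
    exact ⟨_, π, fun i => ⟨h1 i, h2 i⟩, h3⟩
  · rintro n π ⟨h1, h2⟩
    obtain ⟨e, he⟩ := Pool.Agent.T2h78.TW.fac_equiv hS h4 hc (π := π) (fun i => (h1 i).1)
      (fun i => (h1 i).2) (by rw [hDu]; exact h2)
    have hdet : (mat π).det = Pool.Agent.T2h78.TW.gD D.primeFactors ϖ :=
      Pool.Agent.T2h78.TW.det_mq hS hc e he
    have hn : n = (Pool.Agent.T2h78.TW.ixs D.primeFactors).card := by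
      have := Fintype.card_congr e
      rwa [Fintype.card_fin, Fintype.card_coe] at this
    rw [hdet, hn]
    exact hcore

end Pool.Agent.Results.MP_9c97e9_nt.AllTwistsModTwo
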