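import Pool.Agent.T2h78.TW.Fz
import Pool.Agent.T2h78.TW.Cv6
import Pool.Agent.T2h78.TW.Lev
import Pool.Agent.T2h78.TW.Fin1
import Pool.Agent.T2h78.TW.HC
import Pool.Agent.T2h78.TW.LS
import Pool.Agent.T2h78.TW.Tam
import Pool.Agent.T2h78.TW.GA
import Pool.Agent.T2h78.TW.GB
import Pool.Agent.T2h78.TW.GC
import Pool.Agent.T2h78.TW.LR
import Pool.Agent.T2h78.TW.LN
import Pool.Agent.T2h78.TW.LM
import Pool.Agent.T2h69.TW.LSq
import Pool.Agent.T2h69.TW.L2
import Pool.Agent.T2h69.TW.LG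
import Pool.Agent.T2h16.ND.Dens
import Pool.Agent.T2h16.ND.KSB
import Pool.Agent.T2h16.ND.C0

/-!
# The 2-part of the formula of Birch and Swinnerton-Dyer for a positive proportion of ALL quadratic
# twists of `X_0(49)`: the exact natural density

`D ≥ 1` is ANY squarefree number with `D ≡ 1 mod 4` and `7 ∤ D`, with no condition on its prime
factors, and `E_D` is the quadratic twist by `D` of `X_0(49) : y² + x y = x³ - x² - 2 x - 1`. These `D`
have the density `7 / (4 π²)` among all positive integers.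

`TwoPart D` says: `L(E_D, s)` is entire, `L(E_D, 1) ≠ 0`, `E_D(ℚ)` is finite, `Ш(E_D/ℚ)[2^∞] = 0` and
`#E_D(ℚ)_tors² L(E_D, 1) / (Ω ∏ c_p)` is a unit at all the primes above two (the full 2-part of the
formula in analytic rank zero).

Let `c = ∏_{i ≥ 0} (1 - 2^{-(2 i + 1)}) = 0.4194...`. The theorem says:
* the proportion of the `D` with `TwoPart D` among all these `D` is exactly `c / 2 = 0.2097...`, and
  their density among all positive integers is `7 c / (8 π²) = 0.0372...`;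
* for every `D`: `TwoPart D` holds exactly when `E_D(ℚ)` is finite and `Ш(E_D/ℚ)` has no element of
  order two, and also exactly when the predicted order of `Ш` is a unit at one (every) prime above two
  (the equation of `E_D` is minimal);
  so the formula holds modulo two for all `D`, and both sides are odd for the proportion `c / 2`.

So `E_D(ℚ)` is finite and `Ш(E_D/ℚ)[2] = 0` for the proportion `c / 2` only, half of what the usual
heuristics for 2-Selmer groups say: the curve has a cyclic isogeny of degree four over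
`ℚ(√-7) = ℚ(E[2])`, and for nearly all `D` with more inert than split prime factors `≡ 3 mod 4` (half of
the `D`) the matrix of the criterion is singular. As far as we know this is the case that is excluded in
the theorems on the distribution of 2-Selmer groups in families of quadratic twists (Smith; Klagsbrun,
Mazur, Rubin; Klagsbrun, Lemke Oliver).

Proof.
* The criterion of helper78 (the determinant of a matrix over `𝔽₂` made of the quadratic symbols
  in `ℤ[(1+√-7)/2]` of the prime factors of `D`), which is proved by an induction on the number of the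
  prime factors, from the expression of `L(E_D, 1)` by `℘`-functions at the division points, and by
  descent.
* The matrix is not singular iff a linear system in symbols over `ℚ` and over `ℚ(√-7)` has only the
  zero solution; it is reduced to a rectangular matrix `F` and to an alternating form on the kernel of
  its transposed (of the dimension `#{split p ∣ D, p ≡ 3 mod 4} - #{inert p ∣ D, p ≡ 3 mod 4}`).
* The symbols are equidistributed in boxes (large sieve for the quadratic characters over `ℚ` and over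
  `ℚ(√-7)`), so that the proportion for given numbers of prime factors is the one of random matrices.
* The difference of the numbers of prime factors of the two types has a normal law of variance
  `log log X / 2` (method of characteristic functions), so that it is positive for half of the `D`, and
  for nearly all of them it is large.

The parts were proved by the helpers 64 (bilinear sums, boxes), 26, 1, 59 (linear algebra), 99 (sum
over the boxes), 24 and 25 (degenerate labels), 86, 11, 59 (the normal law), 69 (symbols over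
`ℚ(√-7)`), 20 (the linear system), 78 (the criterion) and 16; models are the projects CX, CQ, SQ
(helpers 703, 413 and others) of the starting files.
-/

set_option autoImplicit false

open NumberField NumberField.InfinitePlace IsDedekindDomain WeierstrassCurve MeasureTheory

namespace Pool.Agent.Results.MP_9c97e9_nt.PositiveProportionTwoPart

open Pool.Agent.TH841.NF.D (Sha)
open Pool.Agent.TH841.SH.D (Pt)

/-- The quadratic twist by `D ≡ 1 mod 4` of `X_0(49) : y² + x y = x³ - x² - 2 x - 1`. -/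
def twist (D : ℕ) : WeierstrassCurve ℤ := ⟨1, -((3 * D + 1) / 4), 0, -2 * D ^ 2, -D ^ 3⟩

/-- The curve over `ℚ`. -/
abbrev E (D : ℕ) : WeierstrassCurve ℚ := (twist D).map (Int.castRingHom ℚ)

/-- The equation is minimal at the place `v`: no change of variables over `ℚ` that keeps the
coefficients integral at `v` decreases the order of the discriminant. -/
def MinimalAt (W : WeierstrassCurve ℚ) (v : HeightOneSpectrum (𝓞 ℚ)) : Prop :=
  ∀ C : VariableChange ℚ, v.valuation ℚ (C • W).a₁ ≤ 1 → v.valuation ℚ (C • W).a₂ ≤ 1 →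
    v.valuation ℚ (C • W).a₃ ≤ 1 → v.valuation ℚ (C • W).a₄ ≤ 1 → v.valuation ℚ (C • W).a₆ ≤ 1 →
    v.valuation ℚ (C • W).Δ ≤ v.valuation ℚ W.Δ

/-- `W⁰(ℚ_v)`, the group of the points of `W` over the completion `ℚ_v` with nonsingular reduction:
the point at infinity and the points `(x, y)` where `x` is not integral, or one of the partial
derivatives of `y² + a₁ x y + a₃ y - x³ - a₂ x² - a₄ x - a₆` is a unit at `(x, y)`.
Here `Pt W ℚ_v` is the group of the points of `W` over `ℚ_v`. -/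
noncomputable def nonsing (W : WeierstrassCurve ℚ) (v : HeightOneSpectrum (𝓞 ℚ)) :
    AddSubgroup (Pt W (v.adicCompletion ℚ)) :=
  AddSubgroup.closure {P | ∀ x y h, P = Affine.Point.some x y h →
    1 < Valued.v x ∨
    Valued.v ((W.baseChange (v.adicCompletion ℚ)).a₁ * y -
      (3 * x ^ 2 + 2 * (W.baseChange (v.adicCompletion ℚ)).a₂ * x +
        (W.baseChange (v.adicCompletion ℚ)).a₄)) = 1 ∨
    Valued.v (2 * y + (W.baseChange (v.adicCompletion ℚ)).a₁ * x +
      (W.baseChange (v.adicCompletion ℚ)).a₃) = 1}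

/-- The Tamagawa number `c_v = [W(ℚ_v) : W⁰(ℚ_v)]` of a minimal equation. -/
noncomputable def c (W : WeierstrassCurve ℚ) (v : HeightOneSpectrum (𝓞 ℚ)) : ℕ :=
  (nonsing W v).index

/-- The product of the Tamagawa numbers. -/
noncomputable def Tam (W : WeierstrassCurve ℚ) : ℕ := ∏ᶠ v : HeightOneSpectrum (𝓞 ℚ), c W v

/-- `4 x³ + b₂ x² + 2 b₄ x + b₆ = (2 y + a₁ x + a₃)²`. -/
def cubic (W : WeierstrassCurve ℤ) (x : ℝ) : ℝ := 4 * x ^ 3 + W.b₂ * x ^ 2 + 2 * W.b₄ * x + W.b₆

/-- `Ω = ∫_{W(ℝ)} |ω|` with `ω = dx / (2 y + a₁ x + a₃)`, as an integral over `x`: two real points lie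
over each `x` with `cubic x > 0`. -/
noncomputable def Omega (W : WeierstrassCurve ℤ) : ℝ :=
  2 * ∫ x in {x : ℝ | 0 < cubic W x}, 1 / √(cubic W x)

open Classical in
/-- The order of the torsion subgroup of `W(K)`. -/
noncomputable def torsOrder {K : Type} [Field K] (W : WeierstrassCurve K) : ℕ :=
  Nat.card (AddCommGroup.torsion W.toAffine.Point)

/-- The order of the Tate-Shafarevich group predicted by the formula, for the value `l` of the
L-function of `E_D` at `s = 1`: `l #E_D(ℚ)_tors² / (Ω ∏ c_v)`. -/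
noncomputable def anOrder (D : ℕ) (l : ℂ) : ℂ :=
  l * (torsOrder (E D) : ℂ) ^ 2 / ((Omega (twist D) : ℝ) * (Tam (E D) : ℂ))

/-- `D` is squarefree, `D ≡ 1 mod 4` and `7` does not divide `D`. -/
def Adm (D : ℕ) : Prop := Squarefree D ∧ D % 4 = 1 ∧ ¬ 7 ∣ D

/-- The full 2-part of the conjecture in analytic rank zero: `E_D(ℚ)` is finite, the 2-primary part
of `Ш` is zero, `L(E_D, s)` has an entire continuation `Λ` with `Λ 1 ≠ 0`, and the predicted order of
`Ш` is a unit at all the primes above two (it is a quotient of algebraic numbers which become integral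
after multiplication by an odd number, and so is its inverse). -/
def TwoPart (D : ℕ) : Prop :=
  Finite (E D).toAffine.Point ∧ (∀ (n : ℕ) (x : Sha (E D)), 2 ^ n • x = 0 → x = 0) ∧
    ∃ Λ : ℂ → ℂ, Differentiable ℂ Λ ∧ (∀ s : ℂ, 2 < s.re → Λ s = (E D).LSeries s) ∧ Λ 1 ≠ 0 ∧
      ∃ m : ℤ, Odd m ∧ _root_.IsIntegral ℤ (m * anOrder D (Λ 1)) ∧
        _root_.IsIntegral ℤ (m * (anOrder D (Λ 1))⁻¹)

/-- `c = ∏_{i ≥ 0} (1 - 2^{-(2 i + 1)})` -/
noncomputable def cc : ℝ := ∏' i : ℕ, (1 - (1 / 2 : ℝ) ^ (2 * i + 1))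

/-- the number of the `D ≤ X` with the property `Q` -/
noncomputable def count (Q : ℕ → Prop) (X : ℕ) : ℝ := ({D : ℕ | 1 ≤ D ∧ D ≤ X ∧ Q D}.ncard : ℝ)

section proof

open Pool.Agent.Y698 Pool.Agent.Y698.SG Pool.Agent.T2h78.TW

lemma E_eq {D j : ℕ} (hj : D = 1 + 4 * j) : E D = AX ℚ j := twZ_map hj ℚ

lemma cubic_eq {D j : ℕ} (hj : D = 1 + 4 * j) (x : ℝ) :
    cubic (twist D) x = psD (1 + 4 * j) x := by
  have h1 : (3 * (D : ℤ) + 1) / 4 = 1 + 3 * j := by
    rw [hj]
    push_cast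
    omega
  unfold cubic twist WeierstrassCurve.b₂ WeierstrassCurve.b₄ WeierstrassCurve.b₆ psD
  simp only
  rw [h1, hj]
  push_cast
  ring

lemma real_eq {D j : ℕ} (hj : D = 1 + 4 * j) : Omega (twist D) =
    ∫ x in {x : ℝ | 0 < psD (1 + 4 * j) x}, 2 / Real.sqrt (psD (1 + 4 * j) x) := by
  unfold Omega
  simp only [cubic_eq hj]
  rw [← integral_const_mul]
  congr 1
  funext x
  ring

lemma nr_rat : nrRealPlaces ℚ = 1 ∧ nrComplexPlaces ℚ = 0 := by
  have h := InfinitePlace.card_add_two_mul_card_eq_rank ℚ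
  rw [Module.finrank_self] at h
  omega

lemma rat_all (k : ℚ) : ∃ u : ℚ, k = u := ⟨k, (Rat.cast_id k).symm⟩

lemma gq_of {D : ℕ} (h : Adm D) : ∀ q ∈ D.primeFactors, Gq q := by
  intro q hq
  have h1 := Nat.prime_of_mem_primeFactors hq
  have h2 := Nat.dvd_of_mem_primeFactors hq
  refine ⟨h1, ?_, ?_⟩
  · rintro rfl
    have := h.2.1
    omega
  · rintro rfl
    exact h.2.2 h2

/-- the facts of the proof for one factorization -/
theorem core {D : ℕ} (h : Adm D) {ϖ : ℕ → RR} (hc : Chs D.primeFactors ϖ) :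
    (∀ v : HeightOneSpectrum (𝓞 ℚ), MinimalAt (E D) v) ∧
    (∃ t : ℕ, Odd t ∧ torsOrder (E D) = 2 * t) ∧
    Tam (E D) = 2 ^ (1 + (ixs D.primeFactors).card) ∧
    ((Finite (E D).toAffine.Point ∧ ∀ x : Sha (E D), x + x = 0 → x = 0) ↔
      gD D.primeFactors ϖ ≠ 0) ∧
    ∃ Λ : ℂ → ℂ, Differentiable ℂ Λ ∧
      (∀ s : ℂ, 2 < s.re → Λ s = (E D).LSeries s) ∧
      (∃ m : ℤ, Odd m ∧ _root_.IsIntegral ℤ (m * anOrder D (Λ 1))) ∧
      (∀ (Γ : Type) [LinearOrderedCommGroupWithZero Γ] (v : Valuation ℂ Γ), v 2 < 1 →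
        v (anOrder D (Λ 1)) ≤ 1 ∧ (v (anOrder D (Λ 1)) = 1 ↔ gD D.primeFactors ϖ ≠ 0)) ∧
      (gD D.primeFactors ϖ ≠ 0 → Λ 1 ≠ 0 ∧ ∀ (n : ℕ) (x : Sha (E D)), 2 ^ n • x = 0 → x = 0) := by
  classical
  have hm4 := h.2.1
  set S := D.primeFactors with hSd
  have hS : ∀ q ∈ S, Gq q := gq_of h
  have hDu : ∏ q ∈ S, q = D := Nat.prod_primeFactors_of_squarefree h.1
  obtain ⟨j, hj'⟩ : ∃ j, D = 1 + 4 * j := ⟨D / 4, by omega⟩
  have hj : ∏ q ∈ S, q = 1 + 4 * j := hDu.trans hj'
  have h4 : (∏ q ∈ S, q) % 4 = 1 := by rw [hDu]; exact hm4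
  have hE := E_eq hj'
  have hr := inq5
  have hrf : Fact (Nat.Prime 5) := ⟨hr.pr⟩
  have hM : IsCyclotomicExtension {5} ℚ (CyclotomicField 5 ℚ) := Pool.Agent.Y698.cyc_inst 5
  have han : ∀ l : ℂ, anOrder D l = quoT ℚ j l := by
    intro l
    unfold anOrder torsOrder
    rw [hE, real_eq hj']
    unfold quoT tnum
    have hT : Tam (AX ℚ j) = ∏ᶠ v, tam (AX ℚ j) v := rfl
    rw [hT, Rat.numberField_discr, nr_rat.1, nr_rat.2, pow_one, pow_zero]
    generalize (∏ᶠ v, tam (AX ℚ j) v : ℕ) = t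
    simp
  have hst : torsOrder (E D) = tnum (AX ℚ j) := by
    unfold torsOrder tnum
    rw [hE]
  have htam : Tam (E D) = 2 ^ (1 + (ixs S).card) := by
    rw [hE, card_ixs]
    exact t_TAM S j hS hj
  obtain ⟨Λ, h1, h2, h3⟩ := level t_HC t_LS t_TAM inp.rec' hS hj hc
  simp only [han, hst]
  rw [hE] at htam ⊢
  refine ⟨fun v => t_MIN S j hS hj v, tnum_AX (CyclotomicField 5 ℚ) ℚ hr.ns j, htam,
    ⟨fun h5 => ?_, fun h5 => ⟨mw_finite1 ℚ rat_all hS h4 hc h5 hj,
      fun x hx => sha_two1 ℚ rat_all hS h4 hc h5 hj x hx⟩⟩,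
    Λ, h1, h2, int_of_val fun Γ _ v hv => (h3 Γ v hv).1, fun Γ _ v hv => h3 Γ v hv,
    fun h5 => ⟨fun h0 => ?_, fun n x hx => sha_pow1 ℚ rat_all hS h4 hc h5 hj x n hx⟩⟩
  · intro h0
    obtain ⟨x, hx0, hx2⟩ := conv t_GA t_GB t_GC t_LR Pool.Agent.T2h69.TW.t_LSq t_LN1 t_LN2 t_LM
      (Pool.Agent.T2h69.TW.t_LG t_LN1 t_LN2 t_LM) Pool.Agent.T2h69.TW.t_L2 Pool.Agent.T2h69.TW.t_L7 hS hj hc h0 h5.1
    exact hx0 (h5.2 x hx2)
  · refine exists_val2 fun Γ _ v hv => ?_
    have h6 := ((h3 Γ v hv).2).2 h5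
    rw [h0] at h6
    unfold quoT at h6
    rw [zero_mul, zero_mul, zero_div, map_zero] at h6
    exact zero_ne_one h6

/-- an element of order one for all the valuations above two is a unit above two -/
lemma unit_of_val {z : ℂ} (h : ∀ (Γ : Type) [LinearOrderedCommGroupWithZero Γ] (v : Valuation ℂ Γ),
    v 2 < 1 → v z = 1) : ∃ m : ℤ, Odd m ∧ _root_.IsIntegral ℤ (m * z) ∧
      _root_.IsIntegral ℤ (m * z⁻¹) := by
  obtain ⟨m₁, h1, h2⟩ := int_of_val (x := z) fun Γ _ v hv => (h Γ v hv).le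
  obtain ⟨m₂, h3, h4⟩ := int_of_val (x := z⁻¹) fun Γ _ v hv => by
    rw [map_inv₀, h Γ v hv, inv_one]
  refine ⟨m₁ * m₂, h1.mul h3, ?_, ?_⟩
  · have h5 := (isIntegral_algebraMap (R := ℤ) (A := ℂ) (x := m₂)).mul h2
    have e : algebraMap ℤ ℂ m₂ * ((m₁ : ℂ) * z) = ((m₁ * m₂ : ℤ) : ℂ) * z := by
      rw [eq_intCast]
      push_cast
      ring
    rwa [e] at h5
  · have h5 := (isIntegral_algebraMap (R := ℤ) (A := ℂ) (x := m₁)).mul h4
    have e : algebraMap ℤ ℂ m₁ * ((m₂ : ℂ) * z⁻¹) = ((m₁ * m₂ : ℤ) : ℂ) * z⁻¹ := by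
      rw [eq_intCast]
      push_cast
      ring
    rwa [e] at h5

theorem two_iff {D : ℕ} (h : Adm D) {ϖ : ℕ → RR} (hc : Chs D.primeFactors ϖ) :
    TwoPart D ↔ gD D.primeFactors ϖ ≠ 0 := by
  obtain ⟨-, -, -, h4, Λ, h6, h7, -, h8, h9⟩ := core h hc
  constructor
  · rintro ⟨hf, hs, -⟩
    exact h4.1 ⟨hf, fun x hx => hs 1 x (by rw [pow_one, two_nsmul]; exact hx)⟩
  · intro hd
    obtain ⟨h10, h11⟩ := h9 hd
    exact ⟨(h4.2 hd).1, h11, Λ, h6, h7, h10,
      unit_of_val fun Γ _ v hv => (h8 Γ v hv).2.2 hd⟩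

lemma adm_iff (D : ℕ) (X : ℕ) : D ∈ Pool.Agent.T2h16.ND.DD X ↔ (1 ≤ D ∧ D ≤ X) ∧ Adm D := by
  rw [Pool.Agent.T2h16.NK.mem_DD]
  unfold Adm
  tauto

open Classical in
lemma count_eq (Q : ℕ → Prop) (X : ℕ) : count (fun D => Adm D ∧ Q D) X =
    (((Pool.Agent.T2h16.ND.DD X).filter Q).card : ℝ) := by
  unfold count
  rw [← Set.ncard_coe_finset]
  congr 2
  ext D
  rw [Finset.coe_filter, Set.mem_setOf_eq, Set.mem_setOf_eq, adm_iff]
  tauto

open Classical in
lemma count_adm (X : ℕ) : count Adm X = ((Pool.Agent.T2h16.ND.DD X).card : ℝ) := by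
  have h := count_eq (fun _ => True) X
  rw [Finset.filter_true] at h
  rw [← h]
  unfold count
  simp only [and_true]

end proof

open Classical in
/-- **The 2-part of the formula of Birch and Swinnerton-Dyer for a positive proportion of all the
quadratic twists of `X_0(49)`.** -/
theorem result :
    (0.4194 < cc ∧ cc < 0.4195) ∧
    Filter.Tendsto (fun X : ℕ => count Adm X / X) Filter.atTop (nhds (7 / (4 * Real.pi ^ 2))) ∧
    Filter.Tendsto (fun X : ℕ => count (fun D => Adm D ∧ TwoPart D) X / count Adm X) Filter.atTop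
      (nhds (cc / 2)) ∧
    Filter.Tendsto (fun X : ℕ => count (fun D => Adm D ∧ TwoPart D) X / X) Filter.atTop
      (nhds (7 * cc / (8 * Real.pi ^ 2))) ∧
    ∀ D : ℕ, Adm D →
      (∀ v : HeightOneSpectrum (𝓞 ℚ), MinimalAt (E D) v) ∧
      (TwoPart D ↔ Finite (E D).toAffine.Point ∧ ∀ x : Sha (E D), x + x = 0 → x = 0) ∧
      ∃ Λ : ℂ → ℂ, Differentiable ℂ Λ ∧ (∀ s : ℂ, 2 < s.re → Λ s = (E D).LSeries s) ∧
        ∀ (Γ : Type) [LinearOrderedCommGroupWithZero Γ] (v : Valuation ℂ Γ), v 2 < 1 →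
          v (anOrder D (Λ 1)) ≤ 1 ∧ (v (anOrder D (Λ 1)) = 1 ↔ TwoPart D) := by
  obtain ⟨ϖ, hϖ⟩ := Pool.Agent.T2h16.NK.exists_chg
  have hpr : ∀ {D : ℕ}, Adm D → ∀ p ∈ D.primeFactors, Pool.Agent.T2h16.ND.Pr p := by
    intro D hD
    exact ((Pool.Agent.T2h16.ND.cl_iff hD.1).2 ⟨hD.2.2, hD.2.1⟩).1
  have hdens : Filter.Tendsto (fun X : ℕ => count (fun D => Adm D ∧ TwoPart D) X / count Adm X)
      Filter.atTop (nhds (cc / 2)) := by
    have h := Pool.Agent.T2h16.NK.dens hϖ (Pool.Agent.T2h16.NK.Ksb.t_KSB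
      Pool.Agent.T2h16.NK.Symk.t_SYMK Pool.Agent.T2h16.NK.Bilk.t_BILK ϖ hϖ)
    refine h.congr fun X => ?_
    rw [count_eq, count_adm]
    congr 3
    refine Finset.filter_congr fun D hD => ?_
    have hA := ((adm_iff D X).1 hD).2
    exact (two_iff hA (hϖ.chs (hpr hA))).symm
  have hDD : Filter.Tendsto (fun X : ℕ => count Adm X / X) Filter.atTop
      (nhds (7 / (4 * Real.pi ^ 2))) := by
    refine Pool.Agent.T2h16.ND.clta_zero.congr fun X => ?_
    rw [count_adm]
  refine ⟨⟨Pool.Agent.Y948.CQ.t_C2.2.2.2.1, Pool.Agent.Y948.CQ.t_C2.2.2.2.2⟩, hDD, hdens, ?_, ?_⟩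
  · have h := hdens.mul hDD
    have e : cc / 2 * (7 / (4 * Real.pi ^ 2)) = 7 * cc / (8 * Real.pi ^ 2) := by
      have : (Real.pi : ℝ) ≠ 0 := Real.pi_ne_zero
      field_simp
      ring
    rw [e] at h
    refine h.congr' ?_
    have hpos : (0 : ℝ) < 7 / (4 * Real.pi ^ 2) := by positivity
    filter_upwards [hDD.eventually (lt_mem_nhds hpos)] with X hX
    have hne : count Adm X ≠ 0 := by
      intro h0
      rw [h0, zero_div] at hX
      exact lt_irrefl _ hX
    exact div_mul_div_cancel₀ hne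
  · intro D hD
    have hc := hϖ.chs (hpr hD)
    have h2 := two_iff hD hc
    obtain ⟨h1, -, -, h4, Λ, h6, h7, -, h8, -⟩ := core hD hc
    exact ⟨h1, h2.trans h4.symm, Λ, h6, h7, fun Γ _ v hv =>
      ⟨(h8 Γ v hv).1, (h8 Γ v hv).2.trans h2.symm⟩⟩

end Pool.Agent.Results.MP_9c97e9_nt.PositiveProportionTwoPart
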