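import Pool.Agent.T2h16.TQ.Main

/-!
# The 3-part of the formula of Birch and Swinnerton-Dyer for the prime twists of EVERY member of a
# family of cubic twists: exact densities

`E_N : y² + N y = x³` over `ℚ` (`3`-isogenous to `x³ + y³ = N`). Let `D` be ANY cube-free number prime
to `3` which is divisible by exactly one prime `q = 2` modulo `3`, and by any number `n` of primes that
are `1` modulo `3`. There is no condition on the rank of `E_D`, on `Ш(E_D / ℚ)`, on the root number or
on the cubic residue symbols of the prime factors of `D`. We twist by one more prime `l = 1` modulo `3`,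
in both ways: `N = D l ^ e` with `e = 1` or `2`, where `N` is not `± 1` modulo `9` (this allows two of
the three classes of `l` modulo `9`).

* For all these `N`: `L(E_N, s)` is entire and `z = L(E_N, 1) |E_N(ℚ)_tors|² / (Ω ∏ c_p)` is integral at
  `3`; and it is a unit at `3` if and only if `E_N(ℚ)` is finite and `Ш(E_N / ℚ)[3^∞] = 0` (then the
  `3`-part of the formula holds).
* For EVERY `D`, for `e = 1` and for `e = 2`, and in each of the allowed classes modulo `9` the primes
  `l` for which this is the case have a relative density, which is the same explicit rational number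
  `c(D)`, and `c(D) ≥ (2 / 3) ^ (n + 1)`.

Here `c(D)` is the proportion of the pairs `(a, b)` of vectors over the field with three elements,
`a` indexed by the primes `p = 1` modulo `3` dividing `D` and `b` by all the primes `r` dividing `D`, for
which the linear system `∑ μ_r λ_p(r) (g_r - g_p) = a_p g_p`, `∑ μ_r b_r g_r = 0` has only the zero
solution; `μ_r` is the exponent of `r` in `D` and `λ_p(r)` is the cubic logarithm of `r` modulo `p`.

So a positive proportion of the prime twists of every member satisfies the `3`-part of the formula, also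
if the rank of `E_D` is large or if `Ш(E_D / ℚ)[3^∞]` is not zero; the proportion depends only on the
cubic residue symbols between the prime factors of `D`.

The proof. The formula and the criterion (no splitting `N = d₀ d₁ d₂`) for one `N` are from the starting
library (`MP_4a9ea6_nt/ThreePartCubeFree`, joint work). New: the matrix of `D l ^ e` is the matrix of
`D`, with the symbols of `l` at the `p` subtracted from the diagonal and bordered by the symbols of the
`r` at `l` (the preparations `Q283/TQ` and `Q283/TC` of the starting library for `e = 1` are used). By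
cubic reciprocity all these symbols are the symbols modulo a primary prime of norm `l` of the primary
primes above `D`; these are independent by the theorem of Chebotarev, since the cube roots of different
primes are independent over `ℚ(√-3)`. At least `2 ^ n` of the `3 ^ n` perturbations of the diagonal are
nonsingular, and then two of three values of the last entry of `b` are good.
-/

set_option autoImplicit false

open scoped Classical
open Filter Topology

namespace Pool.Agent.Results.MP_9c97e9_nt.PrimeTwistsThreePart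

open Pool.Agent.Y703.CT
open Pool.Agent.W97.MT (IsGloballyMinimal)
open Pool.Agent.Y700 (Omega)

/-- `D` is not zero, not divisible by `3` and by the cube of a prime, and exactly one prime `q = 2`
modulo `3` divides `D`. -/
def InClass (D : ℕ) : Prop := D ≠ 0 ∧ ¬ 3 ∣ D ∧ (∀ p : ℕ, p.Prime → ¬ p ^ 3 ∣ D) ∧
  ∃ q : ℕ, q.Prime ∧ q % 3 = 2 ∧ q ∣ D ∧ ∀ p : ℕ, p.Prime → p ∣ D → p ≠ q → p % 3 = 1

/-- the right-hand side `Ω ∏ c_p / |E_N(ℚ)_tors|²` of the formula, without the order of `Ш` -/
noncomputable def rhs (N : ℕ) : ℂ :=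
  ((Omega (WD N) : ℝ) : ℂ) * (tamProd (WD N) : ℂ) / (tors N : ℂ) ^ 2

/-- the equation of `E_N` is globally minimal, `L(E_N, s)` is entire, and its value at `1` is
`z Ω ∏ c_p / |E_N(ℚ)_tors|²` with `z` integral at `3`, and `z` is a unit at `3` if and only if `E_N(ℚ)`
is finite and `Ш(E_N / ℚ)[3^∞] = 0` -/
def FormulaModThree (N : ℕ) : Prop :=
  IsGloballyMinimal (WD N) ∧ ∃ f : ℂ → ℂ, IsL (WD N) f ∧ ∃ z : ℂ, f 1 = z * rhs N ∧ ThreeInt z ∧
    (ThreeUnit z ↔ Triv3 N)

/-- the `3`-part of the formula holds, and it is trivial: `L(E_N, s)` is entire, `E_N(ℚ)` is finite,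
`Ш(E_N / ℚ)[3^∞] = 0`, and `L(E_N, 1)` is `Ω ∏ c_p / |E_N(ℚ)_tors|²` up to a unit at `3` -/
def ThreePart (N : ℕ) : Prop :=
  Triv3 N ∧ ∃ f : ℂ → ℂ, IsL (WD N) f ∧ ∃ z : ℂ, f 1 = z * rhs N ∧ ThreeUnit z

/-- the number of the primes `l ≤ X`, `l = r` modulo `9`, with the property `S` -/
noncomputable def count (r : ℕ) (S : ℕ → Prop) (X : ℕ) : ℕ :=
  Nat.card {l : ℕ // l.Prime ∧ l % 9 = r ∧ l ≤ X ∧ S l}

/-- the number of the prime factors of `D` that are `1` modulo `3` -/
def number (D : ℕ) : ℕ := (D.primeFactors.filter fun p => p % 3 = 1).card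

theorem bs_iff (D : ℕ) : InClass D ↔ Q283.TQ.Bs D := by
  unfold InClass Q283.TQ.Bs Base
  tauto

theorem count_eq (r : ℕ) (hr : r = 1 ∨ r = 4 ∨ r = 7) (S : ℕ → Prop) (X : ℕ) :
    count r S X = T2h16.TQ.cnt (fun l => l % 9 = r ∧ S l) X := by
  unfold count T2h16.TQ.cnt
  rw [← Nat.card_coe_set_eq]
  refine Nat.card_congr (Equiv.subtypeEquivRight fun l => ?_)
  rw [Set.mem_ofPred_eq]
  constructor
  · rintro ⟨a, b, c, d⟩
    refine ⟨a, ?_, ⟨b, d⟩, c⟩
    omega
  · rintro ⟨a, -, ⟨b, d⟩, c⟩
    exact ⟨a, b, c, d⟩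

/-- **Main theorem.** -/
theorem result (D : ℕ) (hD : InClass D) :
    -- the formula modulo `3` for all the prime twists of the class
    (∀ e l : ℕ, (e = 1 ∨ e = 2) → l.Prime → l % 3 = 1 → ¬ l ∣ D →
      D * l ^ e % 9 ≠ 1 → D * l ^ e % 9 ≠ 8 → FormulaModThree (D * l ^ e)) ∧
    -- the constant
    (2 / 3 : ℝ) ^ (number D + 1) ≤ T2h16.TQ.cD D ∧
    -- the density of the prime twists with the `3`-part of the formula
    ∀ e r : ℕ, (e = 1 ∨ e = 2) → (r = 1 ∨ r = 4 ∨ r = 7) → D * r ^ e % 9 ≠ 1 → D * r ^ e % 9 ≠ 8 →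
      Tendsto (fun X : ℕ => (count r (fun l => ThreePart (D * l ^ e)) X : ℝ) /
        (count r (fun _ => True) X : ℝ)) atTop (𝓝 (T2h16.TQ.cD D)) := by
  have hB := (bs_iff D).1 hD
  have hcls : ∀ e l : ℕ, (e = 1 ∨ e = 2) → l.Prime → l % 3 = 1 → ¬ l ∣ D →
      D * l ^ e % 9 ≠ 1 → D * l ^ e % 9 ≠ 8 → Cls (D * l ^ e) := by
    intro e l he hl hl1 hlD h1 h8
    have hB' := T2h16.TQ.bs_mul2 hB hl hl1 hlD (e := e) (by omega)
    exact ⟨hB'.1, h1, h8, hB'.2⟩
  refine ⟨?_, T2h16.TQ.cD_low hB, ?_⟩
  · intro e l he hl hl1 hlD h1 h8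
    obtain ⟨a, f, b, z, c, d, g, -⟩ := fin_all (hcls e l he hl hl1 hlD h1 h8)
    exact ⟨a, f, b, z, c, d, g⟩
  · intro e r he hr h1 h8
    have hmod : ∀ l : ℕ, l % 9 = r → D * l ^ e % 9 = D * r ^ e % 9 := by
      rintro l rfl
      exact (Nat.ModEq.mul_left D ((Nat.mod_modEq l 9).symm.pow e))
    have h := T2h16.TQ.main hB he hr (fun l => l % 9 = r ∧ ThreePart (D * l ^ e)) (by
      intro l hl hl1 hlD
      refine and_congr_right fun hlr => ?_
      have hc := hcls e l he hl hl1 hlD (by rw [hmod l hlr]; exact h1) (by rw [hmod l hlr]; exact h8)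
      obtain ⟨-, f, hf, z, hz, -, hu, hN⟩ := fin_all hc
      rw [← hN]
      exact ⟨fun h => h.1, fun h => ⟨h, f, hf, z, hz, hu.2 h⟩⟩)
    refine h.congr fun X => ?_
    rw [count_eq r hr, count_eq r hr]
    simp only [and_true]

end Pool.Agent.Results.MP_9c97e9_nt.PrimeTwistsThreePart
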