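import Pool.Agent.T2h78.X14.Fin
import Pool.Agent.T2h78.X14.Inf
import Pool.Agent.T2h78.X14.Parts

/-!
# The formula of Birch and Swinnerton-Dyer modulo two for the twists of `X_0(14)` by at most two split
# primes and any number of inert primes

`E_D` is the quadratic twist of `X_0(14)` by `D = ∏_{q ∈ S} q ∏_{p ∈ P} p`.  The primes `q ∈ S` are `5`
modulo `8` and not squares modulo `7` (inert in `ℚ(√2)` and in `ℚ(√-7)`; the point of order two of `E_D`
and of the isogenous curve is the only one over `ℚ_q`).  The primes `p ∈ P` are `1` modulo `8` and squares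
modulo `7` (split in both fields: all the points of order two are defined over `ℚ_p`), and there are at
most two of them.  There is no condition on the position of the primes with respect to each other.

We prove for all these `D` that the number `z = L(E_D, 1) (#E_D(ℚ)_tors)² / (Ω ∏ c_v)`, the value of
`#Ш(E_D)` predicted by the formula (zero if the rank is positive), is a rational number with
`ord₂ z ≥ 0`, and that it is a 2-adic unit if and only if `E_D(ℚ)` is finite and the 2-primary part of
`Ш(E_D)` is trivial.  That is, the formula holds modulo two; and if `z` is odd, then the 2-part of the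
formula holds.  Both sides are decided by the determinant of an explicit matrix over `𝔽₂` of size
`#P ≤ 2`, a Rédei matrix with the classes of the zeros of `y⁴ + 13 y² + 128` on the diagonal.

The proof.  Analytic side: the modular symbol sums of the divisors of `D` are related by the Hecke
operators, and by congruences modulo powers of two for the sums over the residues with prescribed
quadratic symbols; the last step is the parity of `(a_p - 2 (p/m)) / 4`, the twist by `m` of the
coefficient of `X_0(14)`, by counting points modulo `p`.  Algebraic side: a complete descent by the two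
isogenies of degree two, with the local images at all the places; in the converse direction the classes
in the kernel of the matrix give everywhere locally soluble coverings without rational points.
-/

set_option autoImplicit false

open NumberField NumberField.InfinitePlace IsDedekindDomain WeierstrassCurve MeasureTheory Filter
  Topology

namespace Pool.Agent.Results.MP_9c97e9_nt.SplitTwistsModTwo

open scoped Classical

open Pool.Agent.TH841.NF.D (Sha)

/-- The quadratic twist `E_D` of `X_0(14)` (`D = 1` modulo `4`), with its global minimal equation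
`y² + x y + y = x³ + ((D - 1)/4) x² + ((9 D² - 1)/2) x - (23 D³ + 1)/4`.  It is isomorphic to
`Y² = X (X² + 13 D X + 128 D²)` by `X = 4 (x - D)`, `Y = 4 (2 y + x + 1)`. -/
def twist (D : ℤ) : WeierstrassCurve ℤ :=
  ⟨1, (D - 1) / 4, 1, (9 * D ^ 2 - 1) / 2, -((23 * D ^ 3 + 1) / 4)⟩

/-- The curve given by the equation of `W` over the ring `R`. -/
abbrev base (W : WeierstrassCurve ℤ) (R : Type) [CommRing R] : WeierstrassCurve R :=
  W.map (Int.castRingHom R)

/-- The number of the affine points `(x, y)` over the ring `R`. -/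
noncomputable def pts (W : WeierstrassCurve ℤ) (R : Type) [CommRing R] : ℕ :=
  Nat.card {P : R × R // (base W R).toAffine.Equation P.1 P.2}

section

variable {K : Type} [Field K] [NumberField K]

/-- `a_v = N v + 1 - #W(k_v)`, the points over the residue field `k_v` counted with the point at
infinity. -/
noncomputable def a (W : WeierstrassCurve ℤ) (v : HeightOneSpectrum (𝓞 K)) : ℤ :=
  (Ideal.absNorm v.asIdeal : ℤ) - pts W (𝓞 K ⧸ v.asIdeal)

/-- The Euler factor of `L(W/K, s)` at `v` : `(1 - a_v N v^(-s) + N v^(1 - 2 s))⁻¹` if the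
discriminant is a unit at `v`, and `(1 - a_v N v^(-s))⁻¹` otherwise. -/
noncomputable def factor (W : WeierstrassCurve ℤ) (s : ℂ) (v : HeightOneSpectrum (𝓞 K)) : ℂ :=
  (1 - (a W v : ℂ) * (Ideal.absNorm v.asIdeal : ℂ) ^ (-s) +
    if ((W.Δ : ℤ) : 𝓞 K) ∈ v.asIdeal then 0 else (Ideal.absNorm v.asIdeal : ℂ) ^ (1 - 2 * s))⁻¹

/-- The equation is minimal at the finite place `v` of `K`: no change of variables over `K` that
keeps the coefficients integral at `v` decreases the valuation of the discriminant. -/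
def MinimalAt (W : WeierstrassCurve ℤ) (v : HeightOneSpectrum (𝓞 K)) : Prop :=
  ∀ C : VariableChange K, v.valuation K (C • base W K).a₁ ≤ 1 →
    v.valuation K (C • base W K).a₂ ≤ 1 → v.valuation K (C • base W K).a₃ ≤ 1 →
    v.valuation K (C • base W K).a₄ ≤ 1 → v.valuation K (C • base W K).a₆ ≤ 1 →
    v.valuation K (C • base W K).Δ ≤ v.valuation K (base W K).Δ

/-- `E⁰(K_v)`, the group of the points of `W` over the completion `K_v` with nonsingular reduction:
the points `(x, y)` where `x` is not integral, or one of the partial derivatives of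
`y² + a₁ x y + a₃ y - x³ - a₂ x² - a₄ x - a₆` is a unit at `(x, y)`, and the point at infinity. -/
noncomputable def nonsing (W : WeierstrassCurve ℤ) (v : HeightOneSpectrum (𝓞 K)) :
    AddSubgroup (base W (v.adicCompletion K)).toAffine.Point :=
  AddSubgroup.closure {P | ∀ x y h, P = Affine.Point.some x y h →
    1 < Valued.v x ∨ Valued.v (W.a₁ * y - (3 * x ^ 2 + 2 * W.a₂ * x + W.a₄)) = 1 ∨
      Valued.v (2 * y + W.a₁ * x + W.a₃) = 1}

/-- The Tamagawa number `c_v = [E(K_v) : E⁰(K_v)]` of a minimal equation. -/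
noncomputable def c (W : WeierstrassCurve ℤ) (v : HeightOneSpectrum (𝓞 K)) : ℕ :=
  (nonsing W v).index

end

section

variable (K : Type) [Field K] [NumberField K]

/-- The product of the Tamagawa numbers. -/
noncomputable def Tam (W : WeierstrassCurve ℤ) : ℕ := ∏ᶠ v : HeightOneSpectrum (𝓞 K), c W v

/-- The 2-primary part of the Tate-Shafarevich group over `K`. -/
noncomputable abbrev Sha2 (W : WeierstrassCurve ℤ) : AddSubgroup (Sha (base W K)) :=
  AddCommGroup.primaryComponent (Sha (base W K)) 2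

/-- The torsion points over `K`. -/
def tors (W : WeierstrassCurve ℤ) : Set (base W K).toAffine.Point := {P | ∃ n : ℕ, 0 < n ∧ n • P = 0}

end

/-- `4 x³ + b₂ x² + 2 b₄ x + b₆ = (2 y + a₁ x + a₃)²`, where `b₂ = a₁² + 4 a₂`,
`b₄ = 2 a₄ + a₁ a₃`, `b₆ = a₃² + 4 a₆`. -/
def cubic (W : WeierstrassCurve ℤ) {R : Type} [CommRing R] (x : R) : R :=
  4 * x ^ 3 + W.b₂ * x ^ 2 + 2 * W.b₄ * x + W.b₆

/-- `Ω = ∫_{W(ℝ)} |ω|` with `ω = dx / (2 y + a₁ x + a₃)`, as an integral over `x`: two real points
lie over each `x` with `cubic x > 0`. -/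
noncomputable def Omega (W : WeierstrassCurve ℤ) : ℝ :=
  2 * ∫ x in {x : ℝ | 0 < cubic W x}, 1 / √(cubic W x)

/-- The prime numbers `q` that are `5` modulo `8` and not squares modulo `7`. -/
def Inert (q : ℕ) : Prop := q.Prime ∧ q % 8 = 5 ∧ (q % 7 = 3 ∨ q % 7 = 5 ∨ q % 7 = 6)

/-- The prime numbers `p` that are `1` modulo `8` and squares modulo `7`. -/
def Split (p : ℕ) : Prop := p.Prime ∧ p % 8 = 1 ∧ (p % 7 = 1 ∨ p % 7 = 2 ∨ p % 7 = 4)

/-- `0` if `j` is a square modulo `i`, and `1` otherwise. -/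
noncomputable def nsq (i j : ℕ) : ZMod 2 := if IsSquare (j : ZMod i) then 0 else 1

/-- `0` if `y⁴ + 13 y² + 128` has a zero modulo `p`, and `1` otherwise. -/
noncomputable def nrt (p : ℕ) : ZMod 2 := if ∃ y : ZMod p, y ^ 4 + 13 * y ^ 2 + 128 = 0 then 0 else 1

/-- The matrix over `𝔽₂` with rows and columns in `P`: the entry `(i, j)` with `i ≠ j` is `nsq i j`,
and the diagonal entry at `i` is `nrt i + ∑_{q ∈ S} nsq i q + ∑_{l ∈ P, l ≠ i} nsq i l`. -/
noncomputable def mat (S P : Finset ℕ) : Matrix P P (ZMod 2) := Matrix.of fun i j =>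
  if i = j then nrt i + ∑ q ∈ S, nsq i q + ∑ l ∈ P.erase i, nsq i l else nsq i j

/-- **Main theorem.** Let `S` be a finite set of primes that are `5` modulo `8` and not squares modulo
`7`, let `P` be a set of at most two primes that are `1` modulo `8` and squares modulo `7`, let `D` be
the product of the primes in `S` and `P`, and let `E_D` be the twist by `D` of `X_0(14)`.

(1) The equation is minimal at all the places, almost all the Tamagawa numbers are `1`, and the numbers
in the formula are defined.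
(2) `L(E_D, s)` is entire, and `L(E_D, 1) = z Ω ∏ c_v / (#E_D(ℚ)_tors)²` for a rational number `z`
with `z = 0` or `ord₂ z ≥ 0`.
(3) `z` is a 2-adic unit if and only if `E_D(ℚ)` is finite and the 2-primary part of `Ш(E_D)` is
trivial.
(4) This is the case if and only if the determinant of the matrix is not zero; for every `S` and `P`
this becomes true after adding to `S` any of infinitely many primes. -/
theorem result (S P : Finset ℕ) (hS : ∀ q ∈ S, Inert q) (hP : ∀ p ∈ P, Split p)
    (h2 : P.card ≤ 2) (D : ℤ) (hD : D = (∏ q ∈ S, (q : ℤ)) * ∏ p ∈ P, (p : ℤ)) :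
    (∀ v : HeightOneSpectrum (𝓞 ℚ), MinimalAt (twist D) v) ∧
    {v : HeightOneSpectrum (𝓞 ℚ) | c (twist D) v ≠ 1}.Finite ∧
    0 < Omega (twist D) ∧ 0 < Tam ℚ (twist D) ∧ (tors ℚ (twist D)).Finite ∧
    (∃ (L : ℂ → ℂ) (z : ℚ), Differentiable ℂ L ∧
      (∀ s : ℂ, 3 / 2 < s.re → HasProd (factor (K := ℚ) (twist D) s) (L s)) ∧
      L 1 = z * Omega (twist D) * Tam ℚ (twist D) / (Nat.card (tors ℚ (twist D)) : ℂ) ^ 2 ∧
      (z ≠ 0 → 0 ≤ padicValRat 2 z) ∧
      ((z ≠ 0 ∧ padicValRat 2 z = 0) ↔
        (Finite (base (twist D) ℚ).toAffine.Point ∧ Nat.card (Sha2 ℚ (twist D)) = 1)) ∧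
      ((z ≠ 0 ∧ padicValRat 2 z = 0) ↔ (mat S P).det ≠ 0)) ∧
    {q : ℕ | Inert q ∧ q ∉ S ∧ (mat (insert q S) P).det ≠ 0}.Infinite := by
  have hD' : D = ((Pool.Agent.T2h78.X14.DD S P : ℕ) : ℤ) := by
    rw [hD]
    unfold Pool.Agent.T2h78.X14.DD
    push_cast
    rfl
  have hm : ∀ S : Finset ℕ, mat S P = Pool.Agent.T2h78.X14.mt S P := by
    intro S
    ext i j
    unfold mat Pool.Agent.T2h78.X14.mt
    rw [Matrix.of_apply, Matrix.of_apply]
    rfl
  have hparts := Pool.Agent.T2h78.X14.parts
  obtain ⟨h1, hf, hT, htf, ht, hper, -, -, L, hL, hE, hz⟩ :=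
    Pool.Agent.T2h78.X14.mainQ hparts hS hP
  have halg := Pool.Agent.T2h78.X14.alg_iff hparts hS hP
  obtain ⟨z, hz1, hz2, hz3⟩ := hz h2
  have hT0 : Tam ℚ (twist D) ≠ 0 := by
    intro h0
    rw [hD'] at h0
    have h0' : Pool.Agent.Y682.XF.Tam ℚ (Pool.Agent.Y700.WM
      ((Pool.Agent.T2h78.X14.DD S P : ℕ) : ℤ)) = 0 := h0
    rw [h0', show padicValNat 2 0 = 0 by simp] at hT
    omega
  have ht0 : Nat.card (tors ℚ (twist D)) ≠ 0 := by
    intro h0
    rw [hD'] at h0
    have h0' : Nat.card (Pool.Agent.Y682.XF.tors ℚ (Pool.Agent.Y700.WM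
      ((Pool.Agent.T2h78.X14.DD S P : ℕ) : ℤ))) = 0 := h0
    rw [h0', show padicValNat 2 0 = 0 by simp] at ht
    omega
  have hinf := Pool.Agent.T2h78.X14.inf_q S hP
  rw [hD'] at hT0 ht0 ⊢
  refine ⟨h1, hf, hper, Nat.pos_of_ne_zero hT0, htf, ⟨L, z, hL, hE, ?_, hz2, ?_, ?_⟩, ?_⟩
  · have c1 : ((Omega (twist ((Pool.Agent.T2h78.X14.DD S P : ℕ) : ℤ)) : ℝ) : ℂ) ≠ 0 := by
      exact_mod_cast (show Omega (twist ((Pool.Agent.T2h78.X14.DD S P : ℕ) : ℤ)) ≠ 0 from hper.ne')
    have c2 : ((Tam ℚ (twist ((Pool.Agent.T2h78.X14.DD S P : ℕ) : ℤ)) : ℕ) : ℂ) ≠ 0 := by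
      exact_mod_cast hT0
    have c3 : ((Nat.card (tors ℚ (twist ((Pool.Agent.T2h78.X14.DD S P : ℕ) : ℤ))) : ℕ) : ℂ) ≠ 0 := by
      exact_mod_cast ht0
    have hz1' : L 1 * (Nat.card (tors ℚ (twist ((Pool.Agent.T2h78.X14.DD S P : ℕ) : ℤ))) : ℂ) ^ 2 /
        ((Omega (twist ((Pool.Agent.T2h78.X14.DD S P : ℕ) : ℤ)) *
          Tam ℚ (twist ((Pool.Agent.T2h78.X14.DD S P : ℕ) : ℤ)) : ℝ) : ℂ) = z := hz1
    rw [← hz1']
    push_cast
    field_simp
  · rw [hz3, ← halg]
    exact Iff.rfl
  · rw [hz3, hm]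
  · refine hinf.mono fun q hq => ⟨hq.1, hq.2.1, ?_⟩
    have h3 := hq.2.2
    rw [hm]
    convert h3

end Pool.Agent.Results.MP_9c97e9_nt.SplitTwistsModTwo
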